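import Pool.Prelude.Def_F_9cf4a76a

set_option autoImplicit false

namespace Pool.Agent.Lib.MP_e43e79_nt

open Ne729cbcb Finset

lemma rosenAux_succ (k i : ℕ) : rosenAux (k + 1) i =
    if i = k + 2 then sInf {n : ℕ | pairCount (rosenAux k) (k + 1) n < n} else rosenAux k i := rfl

lemma aux_eq (k i : ℕ) (h : i ≤ k + 1) : rosenAux k i = rosen i := by
  induction k generalizing i with
  | zero =>
    interval_cases i
    · rfl
    · simp [rosen, rosenAux]
  | succ k ih =>
    rcases Nat.lt_or_ge i (k + 2) with hi | hi
    · rw [rosenAux_succ, if_neg (by omega)]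
      exact ih i (by omega)
    · have : i = k + 2 := by omega
      subst this
      rw [rosen, rosenAux_succ (k + 1) (k + 2), if_neg (by omega)]

lemma pairCount_congr {a b : ℕ → ℕ} {m : ℕ} (h : ∀ i ≤ m, a i = b i) (n : ℕ) :
    pairCount a m n = pairCount b m n := by
  unfold pairCount
  congr 1
  apply Finset.filter_congr
  intro p hp
  simp only [Finset.mem_product, Finset.mem_range] at hp
  rw [h p.1 (by omega), h p.2 (by omega)]

lemma rosen_zero : rosen 0 = 0 := rfl

lemma rosen_one : rosen 1 = 1 := by simp [rosen, rosenAux]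

lemma rosen_succ (k : ℕ) (hk : 1 ≤ k) :
    rosen (k + 1) = sInf {n : ℕ | pairCount rosen k n < n} := by
  obtain ⟨k, rfl⟩ : ∃ m, k = m + 1 := ⟨k - 1, by omega⟩
  rw [← aux_eq (k + 1) (k + 1 + 1) le_rfl, rosenAux_succ, if_pos rfl]
  congr 1
  ext n
  exact iff_of_eq (congrArg (fun c => c < n) (pairCount_congr (fun i hi => aux_eq k i hi) n))

lemma pairCount_le (a : ℕ → ℕ) (m n : ℕ) : pairCount a m n ≤ (m + 1) * (m + 1) := by
  unfold pairCount
  refine (Finset.card_filter_le _ _).trans ?_
  simp

lemma set_nonempty (k : ℕ) : {n : ℕ | pairCount rosen k n < n}.Nonempty :=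
  ⟨(k + 1) * (k + 1) + 1, by
    have := pairCount_le rosen k ((k + 1) * (k + 1) + 1)
    show pairCount rosen k ((k + 1) * (k + 1) + 1) < (k + 1) * (k + 1) + 1
    omega⟩

lemma lt_at_succ (k : ℕ) (hk : 1 ≤ k) : pairCount rosen k (rosen (k + 1)) < rosen (k + 1) := by
  have := Nat.sInf_mem (set_nonempty k)
  rw [← rosen_succ k hk] at this
  exact this

lemma le_of_lt_succ (k n : ℕ) (hk : 1 ≤ k) (hn : n < rosen (k + 1)) :
    n ≤ pairCount rosen k n := by
  rw [rosen_succ k hk] at hn
  have := Nat.notMem_of_lt_sInf hn
  exact not_lt.1 this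

/-- The number of indices `u ≤ v` with `a_u + a_v ≤ x`. -/
noncomputable def g (x v : ℕ) : ℕ := ((range (v + 1)).filter fun u => rosen u + rosen v ≤ x).card

lemma pairCount_eq_sum (m x : ℕ) : pairCount rosen m x + 1 = ∑ v ∈ range (m + 1), g x v := by
  rw [Finset.sum_range_succ' (fun v => g x v) m]
  have h0 : g x 0 = 1 := by
    unfold g
    rw [Finset.card_eq_one]
    refine ⟨0, ?_⟩
    ext u
    simp only [mem_filter, mem_range, mem_singleton, zero_add, Nat.lt_one_iff]
    constructor
    · exact fun h => h.1
    · rintro rfl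
      exact ⟨rfl, by rw [rosen_zero]; exact Nat.zero_le _⟩
  rw [h0]
  congr 1
  unfold pairCount
  have : ((range (m + 1) ×ˢ range (m + 1)).filter
      fun p : ℕ × ℕ => p.1 ≤ p.2 ∧ 1 ≤ p.2 ∧ rosen p.1 + rosen p.2 ≤ x)
      = (range m).biUnion fun v => ((range (v + 2)).filter
        fun u => rosen u + rosen (v + 1) ≤ x).image fun u => (u, v + 1) := by
    ext ⟨u, v⟩
    simp only [mem_filter, mem_product, mem_range, mem_biUnion, mem_image, Prod.mk.injEq]
    constructor
    · rintro ⟨⟨h1, h2⟩, h3, h4, h5⟩
      refine ⟨v - 1, by omega, u, ⟨by omega, ?_⟩, rfl, by omega⟩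
      rw [Nat.sub_add_cancel h4]; exact h5
    · rintro ⟨w, hw, u', ⟨h1, h2⟩, rfl, rfl⟩
      exact ⟨⟨by omega, by omega⟩, by omega, by omega, h2⟩
  rw [this, Finset.card_biUnion]
  · refine Finset.sum_congr rfl fun v _ => ?_
    rw [Finset.card_image_of_injective]
    · rfl
    · intro a b h
      simpa using h
  · intro v _ w _ hvw
    simp only [Finset.disjoint_left, mem_image, mem_filter, not_exists, not_and]
    rintro ⟨p, q⟩ ⟨a, _, h1⟩ b _ h2
    simp only [Prod.mk.injEq] at h1 h2
    omega

lemma g_mono {x y : ℕ} (h : x ≤ y) (v : ℕ) : g x v ≤ g y v := by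
  unfold g
  apply Finset.card_le_card
  intro u hu
  simp only [mem_filter, mem_range] at hu ⊢
  omega

lemma pairCount_mono {m x y : ℕ} (h : x ≤ y) : pairCount rosen m x ≤ pairCount rosen m y := by
  have h1 := pairCount_eq_sum m x
  have h2 := pairCount_eq_sum m y
  have := Finset.sum_le_sum fun v (_ : v ∈ range (m + 1)) => g_mono h v
  omega

lemma pairCount_succ (m x : ℕ) :
    pairCount rosen (m + 1) x = pairCount rosen m x + g x (m + 1) := by
  have h1 := pairCount_eq_sum m x
  have h2 := pairCount_eq_sum (m + 1) x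
  rw [Finset.sum_range_succ] at h2
  omega

lemma self_le_pairCount (k : ℕ) (hk : 1 ≤ k) : rosen k ≤ pairCount rosen k (rosen k) := by
  obtain ⟨m, rfl⟩ : ∃ m, k = m + 1 := ⟨k - 1, by omega⟩
  have hg : 1 ≤ g (rosen (m + 1)) (m + 1) := by
    unfold g
    apply Finset.card_pos.2
    exact ⟨0, by simp [rosen_zero]⟩
  rw [pairCount_succ]
  rcases Nat.eq_zero_or_pos m with hm | hm
  · subst hm
    rw [rosen_one] at *
    omega
  · rcases Nat.eq_zero_or_pos (rosen (m + 1)) with h0 | h0
    · omega
    · have h1 := le_of_lt_succ m (rosen (m + 1) - 1) hm (by omega)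
      have h2 := pairCount_mono (m := m) (show rosen (m + 1) - 1 ≤ rosen (m + 1) by omega)
      omega

lemma rosen_lt_succ (k : ℕ) : rosen k < rosen (k + 1) := by
  rcases Nat.eq_zero_or_pos k with hk | hk
  · subst hk
    rw [rosen_zero, rosen_one]; exact Nat.one_pos
  · by_contra hcon
    push Not at hcon
    have h1 := lt_at_succ k hk
    rcases Nat.lt_or_ge (rosen (k + 1)) (rosen k) with h2 | h2
    · -- smaller than `rosen k`
      rcases Nat.eq_or_lt_of_le hk with h3 | h3
      · have h3' : k = 1 := h3.symm
        subst h3'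
        rw [rosen_one] at h2
        omega
      · obtain ⟨m, rfl⟩ : ∃ m, k = m + 1 := ⟨k - 1, by omega⟩
        have h4 := le_of_lt_succ m _ (by omega) h2
        have h5 := pairCount_succ m (rosen (m + 1 + 1))
        omega
    · have h3 : rosen (k + 1) = rosen k := by omega
      have h4 := self_le_pairCount k hk
      rw [h3] at h1
      omega

lemma rosen_strictMono : StrictMono rosen := strictMono_nat_of_lt_succ rosen_lt_succ

lemma rosen_lt {i j : ℕ} : rosen i < rosen j ↔ i < j := rosen_strictMono.lt_iff_lt

lemma rosen_le {i j : ℕ} : rosen i ≤ rosen j ↔ i ≤ j := rosen_strictMono.le_iff_le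

lemma le_rosen (i : ℕ) : i ≤ rosen i := rosen_strictMono.le_apply

/-- every `x` lies between two consecutive elements -/
lemma exists_between (x : ℕ) : ∃ k, rosen k ≤ x ∧ x < rosen (k + 1) := by
  classical
  have h : ∃ k, x < rosen (k + 1) := ⟨x, (le_rosen (x + 1))⟩
  refine ⟨Nat.find h, ?_, Nat.find_spec h⟩
  rcases Nat.eq_zero_or_pos (Nat.find h) with h0 | h0
  · rw [h0, rosen_zero]; omega
  · have := Nat.find_min h (m := Nat.find h - 1) (by omega)
    rw [Nat.sub_add_cancel h0] at this
    omega

lemma solutionCount_eq {k x : ℕ} (h : x < rosen (k + 1)) :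
    solutionCount x = pairCount rosen k x := by
  unfold solutionCount pairCount
  congr 1
  ext ⟨u, v⟩
  simp only [mem_filter, mem_product, mem_range]
  constructor
  · rintro ⟨_, h3, h4, h5⟩
    have : v < k + 1 := rosen_lt.1 (by omega)
    exact ⟨⟨by omega, this⟩, h3, h4, h5⟩
  · rintro ⟨_, h3, h4, h5⟩
    have := le_rosen v
    exact ⟨⟨by omega, by omega⟩, h3, h4, h5⟩

lemma le_solutionCount (x : ℕ) : x ≤ solutionCount x := by
  obtain ⟨k, h1, h2⟩ := exists_between x
  rw [solutionCount_eq h2]
  rcases Nat.eq_zero_or_pos k with hk | hk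
  · subst hk
    rw [zero_add, rosen_one] at h2
    omega
  · exact le_of_lt_succ k x hk h2

lemma solutionCount_rosen (k : ℕ) : solutionCount (rosen k) = rosen k := by
  refine le_antisymm ?_ (le_solutionCount _)
  rcases Nat.eq_zero_or_pos k with hk | hk
  · subst hk
    rw [rosen_zero]
    simp [solutionCount, pairCount]
  · rw [solutionCount_eq (rosen_lt_succ k)]
    obtain ⟨m, rfl⟩ : ∃ m, k = m + 1 := ⟨k - 1, by omega⟩
    rw [pairCount_succ]
    have hg : g (rosen (m + 1)) (m + 1) = 1 := by
      unfold g
      rw [Finset.card_eq_one]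
      refine ⟨0, ?_⟩
      ext u
      simp only [mem_filter, mem_range, mem_singleton]
      constructor
      · rintro ⟨_, h2⟩
        have := le_rosen u
        omega
      · rintro rfl
        exact ⟨by omega, by rw [rosen_zero]; omega⟩
    rw [hg]
    rcases Nat.eq_zero_or_pos m with hm | hm
    · subst hm
      rw [zero_add, rosen_one]
      simp [pairCount]
    · have := lt_at_succ m hm
      omega

/-- `S(x) + 1` as a sum over the larger index -/
lemma sol_eq_sum {k x : ℕ} (h : x < rosen (k + 1)) :
    solutionCount x + 1 = ∑ v ∈ range (k + 1), g x v := by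
  rw [solutionCount_eq h, pairCount_eq_sum]

lemma g_le (x v : ℕ) : g x v ≤ v + 1 := by
  unfold g
  exact (Finset.card_filter_le _ _).trans (by simp)

/-- if `a_v` is at most half of `x` then all the pairs count -/
lemma g_eq_of_le {x v : ℕ} (h : 2 * rosen v ≤ x) : g x v = v + 1 := by
  unfold g
  rw [Finset.filter_true_of_mem, card_range]
  intro u hu
  rw [mem_range] at hu
  have : rosen u ≤ rosen v := rosen_le.2 (by omega)
  omega

/-- the number of pairs of indices `u ≤ v ≤ k` -/
lemma sol_le_triangle {k x : ℕ} (h : x < rosen (k + 1)) :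
    2 * (solutionCount x + 1) ≤ (k + 1) * (k + 2) := by
  rw [sol_eq_sum h]
  have h1 := Finset.sum_le_sum fun v (_ : v ∈ range (k + 1)) => g_le x v
  have h2 : 2 * ∑ v ∈ range (k + 1), (v + 1) = (k + 1) * (k + 2) := by
    clear h h1
    induction k with
    | zero => simp
    | succ k ih => rw [Finset.sum_range_succ, mul_add, ih]; ring
  omega

/-- `a_m ≤ d` whenever `m (m + 1) / 2 ≤ d` -/
lemma rosen_le_of {m d : ℕ} (h : m * (m + 1) ≤ 2 * d) : rosen m ≤ d := by
  obtain ⟨k, h1, h2⟩ := exists_between d
  have h3 := sol_le_triangle h2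
  have h4 := le_solutionCount d
  have h5 : m ≤ k := by
    by_contra hcon
    push Not at hcon
    have : (k + 1) * (k + 2) ≤ m * (m + 1) := Nat.mul_le_mul (by omega) (by omega)
    omega
  exact (rosen_le.2 h5).trans h1

/-- if `m (m + 1) / 2 ≤ x - a_v`, then `a_v` has at least `m + 1` partners -/
lemma le_g {x v m : ℕ} (hv : rosen v ≤ x) (h : m * (m + 1) ≤ 2 * (x - rosen v)) (hmv : m ≤ v) :
    m + 1 ≤ g x v := by
  unfold g
  have h1 := rosen_le_of h
  calc m + 1 = (range (m + 1)).card := by simp
    _ ≤ _ := Finset.card_le_card ?_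
  intro u hu
  rw [mem_range] at hu
  simp only [mem_filter, mem_range]
  have : rosen u ≤ rosen m := rosen_le.2 (by omega)
  omega

/-- **Local bound.** If `a_i > a_k / 2`, then `a_k - a_i ≥ j (j + 3) / 2` for `j = k - i`. -/
lemma local_bound (k j : ℕ) (hj : j ≤ k) (h : rosen k < 2 * rosen (k - j)) :
    j * (j + 3) ≤ 2 * (rosen k - rosen (k - j)) := by
  induction j using Nat.strong_induction_on with
  | _ j ih =>
    rcases Nat.eq_zero_or_pos j with h0 | hj0
    · subst h0; simp
    · obtain ⟨i, rfl⟩ : ∃ i, k = i + j := ⟨k - j, by omega⟩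
      rw [Nat.add_sub_cancel] at h ⊢
      have hlt : rosen i < rosen (i + j) := rosen_lt.2 (by omega)
      -- the sums in the window
      have e1 := sol_eq_sum (rosen_lt_succ (i + j))
      have e2 := sol_eq_sum (k := i + j) (x := rosen i)
        (hlt.trans (rosen_lt_succ (i + j)))
      rw [solutionCount_rosen] at e1 e2
      -- the terms with larger index `> i`
      have hterm : ∀ w < j, g (rosen i) (i + 1 + w) + (j - w) ≤ g (rosen (i + j)) (i + 1 + w) := by
        intro w hw
        have h0 : g (rosen i) (i + 1 + w) = 0 := by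
          unfold g
          rw [Finset.card_eq_zero, Finset.filter_eq_empty_iff]
          intro u _
          have := rosen_lt (i := i) (j := i + 1 + w) |>.2 (by omega)
          omega
        rw [h0, zero_add]
        have hle : rosen (i + 1 + w) ≤ rosen (i + j) := rosen_le.2 (by omega)
        have hb := ih (j - 1 - w) (by omega) (by omega) (by
          have : rosen i ≤ rosen (i + j - (j - 1 - w)) := rosen_le.2 (by omega)
          omega)
        have hidx : i + j - (j - 1 - w) = i + 1 + w := by omega
        rw [hidx] at hb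
        have := le_g (x := rosen (i + j)) (v := i + 1 + w) (m := j - 1 - w) hle (by nlinarith) (by
          -- the index is large
          have h7 : rosen (j - 1 - w) ≤ rosen (i + j) - rosen (i + 1 + w) :=
            rosen_le_of (by nlinarith)
          have h8 : rosen i < rosen (i + 1 + w) := rosen_lt.2 (by omega)
          have h9 : rosen (j - 1 - w) < rosen (i + 1 + w) := by omega
          exact (rosen_lt.1 h9).le)
        omega
      have hsplit : ∀ x : ℕ, ∑ v ∈ range (i + j + 1), g x v
          = ∑ v ∈ range i, g x v + g x i + ∑ w ∈ range j, g x (i + 1 + w) := by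
        intro x
        rw [show i + j + 1 = (i + 1) + j by ring, Finset.sum_range_add, Finset.sum_range_succ]
      rw [hsplit] at e1 e2
      have s1 := Finset.sum_le_sum fun v (_ : v ∈ range i) => g_mono hlt.le v
      have s2 := Finset.sum_le_sum fun w (hw : w ∈ range j) => hterm w (mem_range.1 hw)
      rw [Finset.sum_add_distrib] at s2
      have s3 : 2 * ∑ w ∈ range j, (j - w) = j * (j + 1) := by
        have : ∑ w ∈ range j, (j - w) = ∑ w ∈ range j, (w + 1) := by
          rw [← Finset.sum_range_reflect]
          refine Finset.sum_congr rfl fun w hw => ?_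
          rw [mem_range] at hw
          omega
        rw [this]
        clear ih hj h hterm hsplit s1 s2 e1 e2 hlt this hj0
        induction j with
        | zero => simp
        | succ j ih => rw [Finset.sum_range_succ, mul_add, ih]; ring
      have g1 : g (rosen i) i = 1 := by
        unfold g
        rw [Finset.card_eq_one]
        refine ⟨0, ?_⟩
        ext u
        simp only [mem_filter, mem_range, mem_singleton]
        constructor
        · rintro ⟨_, h2⟩
          have := le_rosen u
          omega
        · rintro rfl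
          exact ⟨by omega, by rw [rosen_zero]; omega⟩
      have gpos : 1 ≤ g (rosen (i + j)) i := by
        rw [← g1]; exact g_mono hlt.le i
      -- first bound
      have b1 : j * (j + 1) ≤ 2 * (rosen (i + j) - rosen i) := by omega
      have b2 : j + 1 ≤ g (rosen (i + j)) i := by
        apply le_g hlt.le b1
        have h7 : rosen j ≤ rosen (i + j) - rosen i := rosen_le_of b1
        have h9 : rosen j < rosen i := by omega
        exact (rosen_lt.1 h9).le
      have : j * (j + 3) = j * (j + 1) + 2 * j := by ring
      omega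

/-- **Global bound.** -/
lemma global_bound (k : ℕ) : (k + 2) ^ 2 ≤ 4 * rosen k + 5 := by
  -- `p` is the number of elements which are at most `a_k / 2`
  obtain ⟨p, hp, hp'⟩ : ∃ p ≤ k + 1, (∀ v < p, 2 * rosen v ≤ rosen k) ∧
      (∀ v, p ≤ v → v ≤ k → rosen k < 2 * rosen v) := by
    classical
    have h : ∃ p, p = k + 1 ∨ rosen k < 2 * rosen p := ⟨k + 1, Or.inl rfl⟩
    have hle : Nat.find h ≤ k + 1 := Nat.find_min' h (Or.inl rfl)
    refine ⟨Nat.find h, hle, ?_, ?_⟩
    · intro v hv
      have := Nat.find_min h hv
      push Not at this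
      exact this.2
    · intro v hv hvk
      rcases Nat.find_spec h with h1 | h1
      · omega
      · have : rosen (Nat.find h) ≤ rosen v := rosen_le.2 hv
        omega
  obtain ⟨R, hR⟩ : ∃ R, k + 1 = p + R := ⟨k + 1 - p, by omega⟩
  have e1 := sol_eq_sum (rosen_lt_succ k)
  rw [solutionCount_rosen, hR, Finset.sum_range_add] at e1
  have s1 : 2 * ∑ v ∈ range p, g (rosen k) v = p * (p + 1) := by
    have : ∑ v ∈ range p, g (rosen k) v = ∑ v ∈ range p, (v + 1) :=
      Finset.sum_congr rfl fun v hv => g_eq_of_le (hp'.1 v (mem_range.1 hv))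
    rw [this]
    clear this hp hp' hR e1
    induction p with
    | zero => simp
    | succ j ih => rw [Finset.sum_range_succ, mul_add, ih]; ring
  have s2 : R * (R + 1) ≤ 2 * ∑ w ∈ range R, g (rosen k) (p + w) := by
    have h1 : ∑ w ∈ range R, (R - w) ≤ ∑ w ∈ range R, g (rosen k) (p + w) := by
      refine Finset.sum_le_sum fun w hw => ?_
      rw [mem_range] at hw
      have hle : rosen (p + w) ≤ rosen k := rosen_le.2 (by omega)
      have h2 := hp'.2 (p + w) (by omega) (by omega)
      have hb := local_bound k (R - 1 - w) (by omega) (by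
        rw [show k - (R - 1 - w) = p + w by omega]; exact h2)
      rw [show k - (R - 1 - w) = p + w by omega] at hb
      have := le_g (x := rosen k) (v := p + w) (m := R - 1 - w) hle (by nlinarith) (by
        have h7 : rosen (R - 1 - w) ≤ rosen k - rosen (p + w) := rosen_le_of (by nlinarith)
        have h9 : rosen (R - 1 - w) < rosen (p + w) := by omega
        exact (rosen_lt.1 h9).le)
      omega
    have h3 : 2 * ∑ w ∈ range R, (R - w) = R * (R + 1) := by
      have : ∑ w ∈ range R, (R - w) = ∑ w ∈ range R, (w + 1) := by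
        rw [← Finset.sum_range_reflect]
        refine Finset.sum_congr rfl fun w hw => ?_
        rw [mem_range] at hw
        omega
      rw [this]
      clear h1 this hR e1
      induction R with
      | zero => simp
      | succ j ih => rw [Finset.sum_range_succ, mul_add, ih]; ring
    omega
  have h1 : p * (p + 1) + R * (R + 1) ≤ 2 * (rosen k + 1) := by omega
  have h2 : k + 2 = p + R + 1 := by omega
  rw [h2]
  nlinarith [sq_nonneg ((p : ℤ) - R), mul_self_nonneg ((p : ℤ) - R), sq_nonneg (p - R : ℤ)]

end Pool.Agent.Lib.MP_e43e79_nt
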