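import Pool.Agent.Lib.MP_e43e79_nt.Basic

set_option autoImplicit false

namespace Pool.Agent.Lib.MP_e43e79_nt

open Ne729cbcb Finset

/-- `S(x) ≤ 2 a_k`, if `a_k` is the largest element which is at most `x` -/
lemma sol_le_two {k x : ℕ} (h : x < rosen (k + 1)) : solutionCount x ≤ 2 * rosen k := by
  have h1 := sol_le_triangle h
  have h2 := global_bound k
  nlinarith

/-- The pairs of indices with sum of the elements in `(a, x]`. -/
noncomputable def B (k a x : ℕ) : Finset (ℕ × ℕ) :=
  (range (k + 1) ×ˢ range (k + 1)).filter fun p =>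
    p.1 ≤ p.2 ∧ a < rosen p.1 + rosen p.2 ∧ rosen p.1 + rosen p.2 ≤ x

lemma sol_le_add {k x : ℕ} (h : x < rosen (k + 1)) :
    solutionCount x ≤ rosen k + (B k (rosen k) x).card := by
  rw [solutionCount_eq h]
  have h1 := solutionCount_rosen k
  rw [solutionCount_eq (rosen_lt_succ k)] at h1
  suffices hs : pairCount rosen k x ≤ pairCount rosen k (rosen k) + (B k (rosen k) x).card by
    rw [h1] at hs
    exact hs
  clear h1
  unfold pairCount B
  refine le_trans (Finset.card_le_card ?_) (Finset.card_union_le _ _)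
  intro p hp
  simp only [mem_filter, mem_product, mem_range, mem_union] at hp ⊢
  by_cases h2 : rosen p.1 + rosen p.2 ≤ rosen k
  · left
    exact ⟨hp.1, hp.2.1, hp.2.2.1, h2⟩
  · right
    exact ⟨hp.1, hp.2.1, by omega, hp.2.2.2⟩

/-- The number `c` of the partners of `a_u` satisfies `c (c + 1) ≤ 2 min (x - a_k, a_u)`. -/
lemma fiber_bound {k x : ℕ} (h2 : 2 * (x - rosen k) ≤ rosen k) (u : ℕ) :
    ((B k (rosen k) x).filter fun p => p.1 = u).card *
      (((B k (rosen k) x).filter fun p => p.1 = u).card + 1) ≤ 2 * (x - rosen k) ∧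
    ((B k (rosen k) x).filter fun p => p.1 = u).card *
      (((B k (rosen k) x).filter fun p => p.1 = u).card + 1) ≤ 2 * rosen u := by
  classical
  obtain ⟨V, hV⟩ : ∃ V, V = ((B k (rosen k) x).filter fun p => p.1 = u).image Prod.snd := ⟨_, rfl⟩
  have hcard : ((B k (rosen k) x).filter fun p => p.1 = u).card = V.card := by
    rw [hV, Finset.card_image_of_injOn]
    intro p hp q hq hpq
    have hp' := (Finset.mem_filter.1 (Finset.mem_coe.1 hp)).2
    have hq' := (Finset.mem_filter.1 (Finset.mem_coe.1 hq)).2
    exact Prod.ext (hp'.trans hq'.symm) hpq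
  rw [hcard]
  have hmem : ∀ v ∈ V, u ≤ v ∧ v ≤ k ∧ rosen k < rosen u + rosen v ∧ rosen u + rosen v ≤ x := by
    intro v hv
    rw [hV] at hv
    simp only [B, mem_image, mem_filter, mem_product, mem_range] at hv
    obtain ⟨p, ⟨⟨⟨h3, h4⟩, h5, h6, h7⟩, h8⟩, rfl⟩ := hv
    subst h8
    exact ⟨h5, by omega, h6, h7⟩
  rcases V.eq_empty_or_nonempty with h0 | hne
  · rw [h0, card_empty, zero_mul]
    exact ⟨Nat.zero_le _, Nat.zero_le _⟩
  · have m1 := hmem _ (V.min'_mem hne)
    have m2 := hmem _ (V.max'_mem hne)
    have hle := V.min'_le_max' hne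
    have hsub : V ⊆ Finset.Icc (V.min' hne) (V.max' hne) := fun v hv =>
      Finset.mem_Icc.2 ⟨V.min'_le v hv, V.le_max' v hv⟩
    have hc := Finset.card_le_card hsub
    rw [Nat.card_Icc] at hc
    obtain ⟨v1, hv1⟩ : ∃ v, v = V.min' hne := ⟨_, rfl⟩
    obtain ⟨v2, hv2⟩ : ∃ v, v = V.max' hne := ⟨_, rfl⟩
    rw [← hv1] at m1 hle hc
    rw [← hv2] at m2 hle hc
    have r1 : rosen u ≤ rosen v1 := rosen_le.2 m1.1
    have r2 : rosen v1 ≤ rosen v2 := rosen_le.2 hle
    have r3 : rosen v2 ≤ rosen k := rosen_le.2 m2.2.1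
    have hb := local_bound v2 (v2 - v1) (by omega) (by
      rw [show v2 - (v2 - v1) = v1 by omega]
      omega)
    rw [show v2 - (v2 - v1) = v1 by omega] at hb
    obtain ⟨j, hj⟩ : ∃ j, j = v2 - v1 := ⟨_, rfl⟩
    rw [← hj] at hb
    have hc' : V.card ≤ j + 1 := by omega
    have h9 : V.card * (V.card + 1) ≤ (j + 1) * (j + 2) := Nat.mul_le_mul hc' (by omega)
    have h10 : rosen v2 - rosen v1 + 1 ≤ x - rosen k := by omega
    have h11 : rosen v2 - rosen v1 + 1 ≤ rosen u := by omega
    have h12 : (j + 1) * (j + 2) = j * (j + 3) + 2 := by ring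
    constructor <;> omega

/-- `2 a_u ≤ u (u + 1)` -/
lemma rosen_le_triangle (u : ℕ) : 2 * rosen u ≤ u * (u + 1) := by
  rcases Nat.even_mul_succ_self u with ⟨d, hd⟩
  have := rosen_le_of (m := u) (d := d) (by omega)
  omega

lemma sum_min (r q : ℕ) (h : r + 1 ≤ q) :
    2 * ∑ i ∈ range q, min i r + r * (r + 1) = 2 * (r * q) := by
  induction q, h using Nat.le_induction with
  | base =>
    have h1 : ∑ i ∈ range (r + 1), min i r = ∑ i ∈ range (r + 1), i :=
      Finset.sum_congr rfl fun i hi => by
        rw [mem_range] at hi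
        omega
    rw [h1]
    have := Finset.sum_range_id_mul_two (r + 1)
    rw [Nat.add_sub_cancel] at this
    have h3 : (r + 1) * r = r * (r + 1) := by ring
    omega
  | succ q hq ih =>
    rw [Finset.sum_range_succ, min_eq_right (by omega)]
    have e : r * (q + 1) = r * q + r := by ring
    rw [e]
    omega

lemma sum_min_le (r q : ℕ) (h : q ≤ r + 1) : 2 * ∑ i ∈ range q, min i r ≤ q * (q - 1) := by
  have h1 : ∑ i ∈ range q, min i r ≤ ∑ i ∈ range q, i :=
    Finset.sum_le_sum fun i _ => min_le_left _ _
  have := Finset.sum_range_id_mul_two q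
  omega

/-- **The upper bound.** -/
theorem main (x : ℕ) : 2 * solutionCount x ≤ 3 * x := by
  classical
  obtain ⟨k, h1, h2⟩ := exists_between x
  have h3 := sol_le_two h2
  rcases Nat.lt_or_ge (rosen k) (2 * (x - rosen k)) with h5 | h5
  · omega
  · rcases Nat.lt_or_ge x 2 with hx | hx
    · -- `x = 0` or `x = 1`
      have : x = rosen x := by
        interval_cases x
        · rfl
        · exact rosen_one.symm
      have h4 := solutionCount_rosen x
      rw [← this] at h4
      omega
    · have h6 := sol_le_add h2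
      obtain ⟨y, rfl⟩ : ∃ y, x = rosen k + y := ⟨x - rosen k, by omega⟩
      rw [Nat.add_sub_cancel_left] at h5
      obtain ⟨m, hm1, hm2⟩ := exists_between ((rosen k + y) / 2)
      have hq := global_bound m
      -- the largest `r` with `r (r + 1) ≤ 2 y`
      obtain ⟨r, hr1, hr2⟩ : ∃ r, r * (r + 1) ≤ 2 * y ∧ ∀ c, c * (c + 1) ≤ 2 * y → c ≤ r := by
        have hex : ∃ r, 2 * y < (r + 1) * (r + 2) := ⟨2 * y, by nlinarith⟩
        refine ⟨Nat.find hex, ?_, ?_⟩
        · rcases Nat.eq_zero_or_pos (Nat.find hex) with h0 | h0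
          · rw [h0]; omega
          · have := Nat.find_min hex (m := Nat.find hex - 1) (by omega)
            push Not at this
            rw [show Nat.find hex - 1 + 1 = Nat.find hex by omega,
              show Nat.find hex - 1 + 2 = Nat.find hex + 1 by omega] at this
            exact this
        · intro c hc
          by_contra hcon
          push Not at hcon
          have := Nat.find_spec hex
          have h8 : (Nat.find hex + 1) * (Nat.find hex + 2) ≤ c * (c + 1) :=
            Nat.mul_le_mul (by omega) (by omega)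
          omega
      have hB : (B k (rosen k) (rosen k + y)).card ≤ ∑ i ∈ range (m + 1), min i r := by
        rw [Finset.card_eq_sum_card_fiberwise (f := Prod.fst) (t := range (m + 1))]
        · refine Finset.sum_le_sum fun u _ => ?_
          have hf := fiber_bound (k := k) (x := rosen k + y)
            (by rw [Nat.add_sub_cancel_left]; exact h5) u
          rw [Nat.add_sub_cancel_left] at hf
          refine le_min ?_ (hr2 _ hf.1)
          have h8 := rosen_le_triangle u
          by_contra hcon
          push Not at hcon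
          have h9 : (u + 1) * (u + 2) ≤ _ := Nat.mul_le_mul hcon (Nat.succ_le_succ hcon)
          have h10 := h9.trans (hf.2.trans h8)
          nlinarith
        · intro p hp
          have hp' := Finset.mem_coe.1 hp
          simp only [B, mem_filter, mem_product, mem_range] at hp'
          have : rosen p.1 ≤ rosen p.2 := rosen_le.2 hp'.2.1
          exact Finset.mem_coe.2 (mem_range.2 (rosen_lt.1 (by omega)))
      have hm : 1 ≤ m := by
        by_contra hcon
        have : m = 0 := by omega
        subst this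
        rw [zero_add, rosen_one] at hm2
        omega
      have hm3 : 2 * rosen m ≤ rosen k + y := by omega
      have hm4 : m * m + 4 * m ≤ 2 * (rosen k + y) + 1 := by nlinarith
      rcases Nat.lt_or_ge r (m + 1) with h7 | h7
      · have hs := sum_min r (m + 1) (by omega)
        -- `2 S ≤ 2 a + 2 r (m + 1) - r (r + 1)` and `r (r + 1) ≤ 2 y`
        have h8 : 4 * (r * m) ≤ 4 * (r * r) + m * m := by
          have : (2 * (r : ℤ) - m) ^ 2 ≥ 0 := sq_nonneg _
          have h9 : (4 * (r * m) : ℤ) ≤ 4 * (r * r) + m * m := by nlinarith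
          exact_mod_cast h9
        nlinarith
      · have hs := sum_min_le r (m + 1) (by omega)
        rw [Nat.add_sub_cancel] at hs
        nlinarith

end Pool.Agent.Lib.MP_e43e79_nt
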